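import Pool.Agent.CyG.Main2

set_option autoImplicit false

/-!
# Two disjoint embedded geodesic lines on cylinders with circles bending to one side

Let `g = E dx² + 2 F dx dt + G dt²` be a smooth complete Riemannian metric on the cylinder
`(ℝ/ℤ) × ℝ`.  Suppose that the circles `{t = const}`, `t ∈ A`, bend weakly towards decreasing `t`,
where `A = ℝ`, or `A = [τ, ∞)`, the circle `{t = τ}` is a closed geodesic (nothing is assumed
below it) and not all circles above it are geodesics.  Then there are two disjoint embedded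
geodesic lines.
-/

namespace Pool.Agent.Results.MP_a485ff_gt.ConvexCircles

open Pool.Agent.CyG

/-- Two disjoint embedded geodesic lines, inside `{t ∈ A}` and with `t` strictly increasing. -/
theorem result (g : CylMetric) (hc : g.Complete) (A : Set ℝ)
    (hA : A = Set.univ ∨ ∃ τ : ℝ, A = Set.Ici τ ∧ (∀ x, g.bend (x, τ) = 0) ∧
      ∃ x, ∃ t ∈ A, g.bend (x, t) ≠ 0)
    (hb : ∀ x, ∀ t ∈ A, 0 ≤ g.bend (x, t)) :
    ∃ c₁ c₂ : ℝ → AddCircle (1 : ℝ) × ℝ, g.IsLine c₁ ∧ g.IsLine c₂ ∧
      Topology.IsEmbedding c₁ ∧ Topology.IsEmbedding c₂ ∧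
      Disjoint (Set.range c₁) (Set.range c₂) ∧
      StrictMono (fun s => (c₁ s).2) ∧ StrictMono (fun s => (c₂ s).2) ∧
      (∀ s, (c₁ s).2 ∈ A) ∧ (∀ s, (c₂ s).2 ∈ A) :=
  CylMetric.main₂ hc hA hb

end Pool.Agent.Results.MP_a485ff_gt.ConvexCircles
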