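import Pool.Agent.CyGN.MainA
import Pool.Agent.CyGN.CaptExp

set_option autoImplicit false

/-!
# A complete metric on the cylinder without two disjoint embedded geodesic lines

There are a smooth complete Riemannian metric `g = E dx² + 2 F dx dt + G dt²` on the cylinder
`(ℝ/ℤ) × ℝ` and a point `p` such that every geodesic line (parametrised by arc length, defined on
all of `ℝ`) which is injective passes through `p`.  In particular every two embedded geodesic
lines of `g` have a common point.
-/

namespace Pool.Agent.Results.MP_a485ff_gt.NoDisjointLines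

open Pool.Agent.CyG Pool.Agent.CyGN

/-- A complete metric on the cylinder all of whose injective geodesic lines pass through one
point, so that any two embedded geodesic lines have a common point. -/
theorem result : ∃ g : CylMetric, g.Complete ∧
    (∃ p : AddCircle (1 : ℝ) × ℝ, ∀ c : ℝ → AddCircle (1 : ℝ) × ℝ, g.IsLine c →
      Function.Injective c → p ∈ Set.range c) ∧
    ∀ c₁ c₂ : ℝ → AddCircle (1 : ℝ) × ℝ, g.IsLine c₁ → g.IsLine c₂ →
      Topology.IsEmbedding c₁ → Topology.IsEmbedding c₂ →
      ¬ Disjoint (Set.range c₁) (Set.range c₂) := by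
  have key : ∀ c : ℝ → AddCircle (1 : ℝ) × ℝ, metNO.metric.IsLine c → Function.Injective c →
      ((0, 0) : AddCircle (1 : ℝ) × ℝ) ∈ Set.range c := fun c hc hi =>
    metNO_line metNO_cExp hc hi
  exact ⟨metNO.metric, metNO_complete, ⟨(0, 0), key⟩, fun c₁ c₂ h₁ h₂ e₁ e₂ =>
    Set.not_disjoint_iff.2 ⟨(0, 0), key c₁ h₁ e₁.injective, key c₂ h₂ e₂.injective⟩⟩

end Pool.Agent.Results.MP_a485ff_gt.NoDisjointLines
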